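import Pool.Agent.P8H60.BC.Stm

/-!
# Project BC, package CH: a Chernoff bound for the product normal law
-/

set_option autoImplicit false

open Finset MeasureTheory ProbabilityTheory

namespace Pool.Agent.P8H76.BC

open Pool.Agent.P8H60.BC

/-- the factors -/
noncomputable def fac (t : ℝ) (B : Set ℝ) (x : ℝ) : ℝ := 1 + B.indicator (fun _ => Real.exp t - 1) x

lemma integral_fac (t : ℝ) (B : Set ℝ) (hB : MeasurableSet B) :
    ∫ x, fac t B x ∂(gaussianReal 0 1) = 1 + (gaussianReal 0 1).real B * (Real.exp t - 1) := by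
  unfold fac
  rw [integral_add (integrable_const _) ((integrable_const _).indicator hB), integral_indicator hB]
  simp

lemma integrable_fac (t : ℝ) (B : Set ℝ) (hB : MeasurableSet B) : Integrable (fac t B) (gaussianReal 0 1) :=
  (integrable_const _).add ((integrable_const _).indicator hB)

lemma prod_fac (t : ℝ) (K : ℕ) (B : Fin K → Set ℝ) (z : Fin K → ℝ) :
    ∏ i, fac t (B i) (z i) = Real.exp (t * (({i | z i ∈ B i} : Set (Fin K)).ncard : ℝ)) := by
  classical
  have h1 : ∀ i, fac t (B i) (z i) = if z i ∈ B i then Real.exp t else 1 := by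
    intro i
    unfold fac
    by_cases h : z i ∈ B i
    · rw [Set.indicator_of_mem h, if_pos h]
      ring
    · rw [Set.indicator_of_notMem h, if_neg h, add_zero]
  rw [Finset.prod_congr rfl fun i _ => h1 i, Finset.prod_ite, Finset.prod_const, Finset.prod_const_one, mul_one,
    ← Real.exp_nat_mul]
  congr 1
  rw [Set.ncard_eq_toFinset_card', mul_comm]
  congr 2
  congr 1
  ext i
  simp

lemma exp_bound (t : ℝ) (h0 : 0 ≤ t) (h1 : t ≤ 1) : Real.exp t - 1 ≤ t + t ^ 2 := by
  have := Real.abs_exp_sub_one_sub_id_le (x := t) (by rw [abs_of_nonneg h0]; exact h1)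
  have h2 := le_abs_self (Real.exp t - 1 - t)
  linarith

theorem t_CH : S_CH := by
  intro p ε hp hε
  obtain ⟨t, ht⟩ : ∃ t : ℝ, t = min 1 (ε / (2 * (p + 1))) := ⟨_, rfl⟩
  have ht0 : 0 < t := by
    rw [ht]
    exact lt_min one_pos (by positivity)
  have ht1 : t ≤ 1 := by rw [ht]; exact min_le_left _ _
  have ht2 : t ≤ ε / (2 * (p + 1)) := by rw [ht]; exact min_le_right _ _
  have ht3 : p * t ≤ ε / 2 := by
    have h1 : t * (2 * (p + 1)) ≤ ε := by
      rwa [le_div_iff₀ (by positivity)] at ht2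
    nlinarith
  refine ⟨t * ε / 2, by positivity, fun K B hB hp' => ?_⟩
  have hint : Integrable (fun z : Fin K → ℝ => ∏ i, fac t (B i) (z i)) (Measure.pi fun _ : Fin K => gaussianReal 0 1) :=
    Integrable.fintype_prod (fun i => integrable_fac t (B i) (hB i))
  have hpos : ∀ z : Fin K → ℝ, 0 ≤ ∏ i, fac t (B i) (z i) := fun z => by
    rw [prod_fac]
    exact (Real.exp_pos _).le
  have hE : ∫ z, ∏ i, fac t (B i) (z i) ∂(Measure.pi fun _ : Fin K => gaussianReal 0 1) ≤
      Real.exp (K * (p * (t + t ^ 2))) := by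
    rw [integral_fintype_prod_eq_prod (fun i => fac t (B i))]
    have h1 : ∀ i ∈ (univ : Finset (Fin K)), ∫ x, fac t (B i) x ∂(gaussianReal 0 1) ≤ Real.exp (p * (t + t ^ 2)) := by
      intro i _
      rw [integral_fac t (B i) (hB i)]
      have h2 : 0 ≤ Real.exp t - 1 := by
        have := Real.add_one_le_exp t
        linarith
      have h3 : (gaussianReal 0 1).real (B i) * (Real.exp t - 1) ≤ p * (t + t ^ 2) :=
        mul_le_mul (hp' i) (exp_bound t ht0.le ht1) h2 hp
      have h4 := Real.add_one_le_exp (p * (t + t ^ 2))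
      linarith
    have h0 : ∀ i ∈ (univ : Finset (Fin K)), 0 ≤ ∫ x, fac t (B i) x ∂(gaussianReal 0 1) := by
      intro i _
      rw [integral_fac t (B i) (hB i)]
      have h2 : 0 ≤ Real.exp t - 1 := by
        have := Real.add_one_le_exp t
        linarith
      positivity
    refine le_trans (Finset.prod_le_prod h0 h1) ?_
    rw [Finset.prod_const, Finset.card_univ, Fintype.card_fin, ← Real.exp_nat_mul]
  have hM := mul_meas_ge_le_integral_of_nonneg (μ := Measure.pi fun _ : Fin K => gaussianReal 0 1)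
    (Filter.Eventually.of_forall hpos) hint (Real.exp (t * ((p + ε) * K)))
  have hset : {z : Fin K → ℝ | (p + ε) * K ≤ (({i | z i ∈ B i} : Set (Fin K)).ncard : ℝ)} =
      {z : Fin K → ℝ | Real.exp (t * ((p + ε) * K)) ≤ ∏ i, fac t (B i) (z i)} := by
    ext z
    rw [Set.mem_ofPred_eq, Set.mem_ofPred_eq, prod_fac, Real.exp_le_exp]
    exact (mul_le_mul_iff_right₀ ht0).symm
  rw [hset]
  have h5 := le_trans hM hE
  have h6 : (Measure.pi fun _ : Fin K => gaussianReal 0 1).real
      {z : Fin K → ℝ | Real.exp (t * ((p + ε) * K)) ≤ ∏ i, fac t (B i) (z i)} ≤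
      Real.exp (K * (p * (t + t ^ 2))) / Real.exp (t * ((p + ε) * K)) := by
    rw [le_div_iff₀ (Real.exp_pos _), mul_comm]
    exact h5
  refine le_trans h6 ?_
  rw [← Real.exp_sub, Real.exp_le_exp]
  have hK : (0 : ℝ) ≤ K := Nat.cast_nonneg K
  have h7 : K * (p * (t + t ^ 2)) - t * ((p + ε) * K) = K * t * (p * t - ε) := by ring
  rw [h7]
  have h8 : K * t * (p * t - ε) ≤ K * t * (-(ε / 2)) :=
    mul_le_mul_of_nonneg_left (by linarith) (by positivity)
  linarith

end Pool.Agent.P8H76.BC
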